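import Mathlib
import Pool.Agent.H39R3.PB.Basic

/-!
# Task T1 of the project H39-PAL: fourth and second power of a block, general base
(port of `Pool.Agent.H535R2.Pal.T1`)
-/

set_option autoImplicit false

namespace Pool.Agent.H944R3.PB

open Finset Pool.Agent.Helper112 Pool.Agent.H39R3.PB

lemma fr_step (b M c : ℕ) (hc : c ≤ M) : fr b (M + 1) c = b * fr b M c := by
  rw [fr_scale (L := M + 1) (M := M) (by omega) hc]
  simp

lemma fr_top (b M : ℕ) : fr b (M + 1) (M + 1) = b ^ (2 * M + 2) + 1 := by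
  unfold fr
  rw [if_neg (by omega)]
  congr 1
  · congr 1; ring
  · simp

/-- `(b - 1) ∑ fr M c + 1 = b ^ (2 M + 1)` -/
lemma sum_fr_int (b M : ℕ) :
    ((b : ℤ) - 1) * ∑ c ∈ range (M + 1), (fr b M c : ℤ) + 1 = (b : ℤ) ^ (2 * M + 1) := by
  induction M with
  | zero => simp [fr]
  | succ M ih =>
    rw [sum_range_succ]
    have h1 : ∑ c ∈ range (M + 1), (fr b (M + 1) c : ℤ) =
        b * ∑ c ∈ range (M + 1), (fr b M c : ℤ) := by
      rw [mul_sum]
      apply sum_congr rfl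
      intro c hc
      rw [mem_range] at hc
      rw [fr_step b M c (by omega)]
      push_cast
      ring
    rw [h1, fr_top]
    push_cast
    have h3 : (b : ℤ) ^ (2 * (M + 1) + 1) = b * b * b ^ (2 * M + 1) := by ring
    have h4 : (b : ℤ) ^ (2 * M + 2) = b * b ^ (2 * M + 1) := by ring
    rw [h3, h4, ← ih]
    ring

/-- uniqueness of the expansion with small digits -/
lemma digits_zero (b : ℕ) (hb2 : 2 ≤ b) (M : ℕ) : ∀ z : ℕ → ℤ,
    (∀ c ≤ M, |z c| ≤ 2 * ((b : ℤ) - 1)) →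
    ∑ c ∈ range (M + 1), z c * fr b M c = 0 → ∀ c ≤ M, z c = 0 := by
  have hbZ : (2 : ℤ) ≤ b := by exact_mod_cast hb2
  induction M with
  | zero =>
    intro z _ h c hc
    obtain rfl : c = 0 := by omega
    simpa [fr] using h
  | succ M ih =>
    intro z hz h
    have h1 : ∑ c ∈ range (M + 1), z c * fr b (M + 1) c =
        b * ∑ c ∈ range (M + 1), z c * fr b M c := by
      rw [mul_sum]
      apply sum_congr rfl
      intro c hc
      rw [mem_range] at hc
      rw [fr_step b M c (by omega)]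
      push_cast
      ring
    have h2 : (fr b (M + 1) (M + 1) : ℤ) = (b : ℤ) ^ (2 * M + 2) + 1 := by
      rw [fr_top]; push_cast; ring
    rw [sum_range_succ, h1, h2] at h
    have hb : |∑ c ∈ range (M + 1), z c * fr b M c| ≤
        2 * (((b : ℤ) - 1) * ∑ c ∈ range (M + 1), (fr b M c : ℤ)) := by
      rw [← mul_assoc, mul_sum]
      refine (abs_sum_le_sum_abs _ _).trans (sum_le_sum fun c hc => ?_)
      rw [mem_range] at hc
      rw [abs_mul, abs_of_nonneg (show (0 : ℤ) ≤ fr b M c by positivity)]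
      exact mul_le_mul_of_nonneg_right (hz c (by omega)) (by positivity)
    have hs := sum_fr_int b M
    have hzM := hz (M + 1) le_rfl
    have hp : (0 : ℤ) < (b : ℤ) ^ (2 * M + 1) := by positivity
    have hpe : (b : ℤ) ^ (2 * M + 2) = b * (b : ℤ) ^ (2 * M + 1) := by ring
    have h0 : z (M + 1) = 0 := by
      rw [hpe] at h
      generalize ((b : ℤ) - 1) * ∑ c ∈ range (M + 1), (fr b M c : ℤ) = G1 at *
      generalize (b : ℤ) ^ (2 * M + 1) = P at *
      generalize ∑ c ∈ range (M + 1), z c * fr b M c = S at *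
      generalize z (M + 1) = t at *
      have hdvd : (b : ℤ) ∣ t := by
        have : t = b * (-S - t * P) := by linear_combination h
        exact ⟨_, this⟩
      obtain ⟨u, rfl⟩ := hdvd
      rw [abs_le] at hzM hb
      have hu1 : u ≤ 1 := by
        by_contra hcon
        have h5 : (2 : ℤ) ≤ u := by omega
        have h6 : (b : ℤ) * 2 ≤ b * u := mul_le_mul_of_nonneg_left h5 (by linarith)
        linarith [hzM.2]
      have hu2 : -1 ≤ u := by
        by_contra hcon
        have h5 : u ≤ (-2 : ℤ) := by omega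
        have h6 : (b : ℤ) * u ≤ b * (-2) := mul_le_mul_of_nonneg_left h5 (by linarith)
        linarith [hzM.1]
      have h7 : 2 * P ≤ (b : ℤ) * P := mul_le_mul_of_nonneg_right hbZ hp.le
      have hb0 : (b : ℤ) ≠ 0 := by linarith
      have : u = 0 ∨ u = 1 ∨ u = -1 := by omega
      rcases this with rfl | rfl | rfl
      · simp
      · exfalso
        have h8 : S + (b * P + 1) = 0 := by
          have h9 : (b : ℤ) * (S + (b * P + 1)) = 0 := by linear_combination h
          rcases mul_eq_zero.1 h9 with h10 | h10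
          · exact absurd h10 hb0
          · exact h10
        linarith [hb.1, hb.2]
      · exfalso
        have h8 : S - (b * P + 1) = 0 := by
          have h9 : (b : ℤ) * (S - (b * P + 1)) = 0 := by linear_combination h
          rcases mul_eq_zero.1 h9 with h10 | h10
          · exact absurd h10 hb0
          · exact h10
        linarith [hb.1, hb.2]
    have h5 : ∑ c ∈ range (M + 1), z c * fr b M c = 0 := by
      rw [h0, zero_mul, add_zero] at h
      rcases mul_eq_zero.1 h with h6 | h6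
      · exfalso; linarith
      · exact h6
    intro c hc
    rcases Nat.lt_or_ge M c with h6 | h6
    · obtain rfl : c = M + 1 := by omega
      exact h0
    · exact ih z (fun c hc => hz c (by omega)) h5 c h6

/-- digit sum -/
noncomputable def DD (b : ℕ) (β : ℝ) : ℂ := ∑ m ∈ range b, ee (m * β)

/-- number of representations as a sum of two digits -/
def w2 (b s : ℕ) : ℕ := (((range b) ×ˢ (range b)).filter (fun p => p.1 + p.2 = s)).card

/-- ranges and weights -/
def RR (b K c : ℕ) : ℕ := if c < K then 2 * b - 1 else b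
def ww (b K c s : ℕ) : ℕ := if c < K then w2 b s else 1
def xx (K c : ℕ) : ℕ := if c < K then 2 else 1

lemma w2_le1 (b s : ℕ) : w2 b s ≤ s + 1 := by
  unfold w2
  have h := card_le_card_of_injOn (s := ((range b) ×ˢ (range b)).filter (fun p => p.1 + p.2 = s))
    (t := range (s + 1)) (fun p => p.1) (by
      intro p hp
      have hp' := mem_filter.1 (mem_coe.1 hp)
      rw [mem_coe, mem_range]
      change p.1 < s + 1
      omega) (by
      intro p hp q hq hpq
      have hp' := (mem_filter.1 (mem_coe.1 hp)).2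
      have hq' := (mem_filter.1 (mem_coe.1 hq)).2
      have hpq' : p.1 = q.1 := hpq
      exact Prod.ext hpq' (by omega))
  rwa [card_range] at h

lemma w2_le2 (b s : ℕ) : w2 b s ≤ b - (s + 1 - b) := by
  unfold w2
  have h := card_le_card_of_injOn (s := ((range b) ×ˢ (range b)).filter (fun p => p.1 + p.2 = s))
    (t := Ico (s + 1 - b) b) (fun p => p.1) (by
      intro p hp
      have hp' := mem_filter.1 (mem_coe.1 hp)
      have hp2 := hp'.1
      rw [mem_product, mem_range, mem_range] at hp2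
      rw [mem_coe, mem_Ico]
      change s + 1 - b ≤ p.1 ∧ p.1 < b
      omega) (by
      intro p hp q hq hpq
      have hp' := (mem_filter.1 (mem_coe.1 hp)).2
      have hq' := (mem_filter.1 (mem_coe.1 hq)).2
      have hpq' : p.1 = q.1 := hpq
      exact Prod.ext hpq' (by omega))
  rwa [Nat.card_Ico] at h

lemma sq_sum (n : ℕ) : 6 * ∑ s ∈ range n, (s + 1) ^ 2 = n * (n + 1) * (2 * n + 1) := by
  induction n with
  | zero => simp
  | succ n ih =>
    rw [sum_range_succ, mul_add, ih]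
    ring

/-- the energy of the digits -/
noncomputable def EE (b : ℕ) : ℝ := ∑ s ∈ range (2 * b - 1), ((w2 b s : ℕ) : ℝ) ^ 2

lemma EE_le (b : ℕ) (hb : 2 ≤ b) : EE b ≤ 3 / 4 * (b : ℝ) ^ 3 := by
  obtain ⟨B, rfl⟩ : ∃ B, b = B + 1 := ⟨b - 1, by omega⟩
  have h1 : ∑ s ∈ range (2 * (B + 1) - 1), (w2 (B + 1) s) ^ 2 ≤
      ∑ s ∈ range (B + 1), (s + 1) ^ 2 + ∑ s ∈ range B, (s + 1) ^ 2 := by
    have e : 2 * (B + 1) - 1 = (B + 1) + B := by omega
    rw [e, sum_range_add]
    apply add_le_add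
    · exact sum_le_sum fun s _ => Nat.pow_le_pow_left (w2_le1 _ _) 2
    · rw [← sum_range_reflect (fun s => (s + 1) ^ 2) B]
      apply sum_le_sum
      intro s hs
      rw [mem_range] at hs
      apply Nat.pow_le_pow_left
      refine (w2_le2 _ _).trans ?_
      omega
  have h2 := sq_sum (B + 1)
  have h3 := sq_sum B
  have h4 : 6 * ∑ s ∈ range (2 * (B + 1) - 1), (w2 (B + 1) s) ^ 2 ≤
      (B + 1) * (B + 1 + 1) * (2 * (B + 1) + 1) + B * (B + 1) * (2 * B + 1) := by
    omega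
  have h5 : (6 : ℝ) * EE (B + 1) ≤
      ((B : ℝ) + 1) * (B + 1 + 1) * (2 * (B + 1) + 1) + B * (B + 1) * (2 * B + 1) := by
    unfold EE
    exact_mod_cast h4
  have hB : (1 : ℝ) ≤ B := by
    have : 1 ≤ B := by omega
    exact_mod_cast this
  push_cast
  nlinarith [mul_nonneg (sub_nonneg.2 hB) (sub_nonneg.2 hB), mul_nonneg (sub_nonneg.2 hB)
    (mul_nonneg (sub_nonneg.2 hB) (sub_nonneg.2 hB))]

lemma DD_sq (b : ℕ) (hb : 1 ≤ b) (β : ℝ) :
    DD b β ^ 2 = ∑ s ∈ range (2 * b - 1), (w2 b s : ℂ) * ee (s * β) := by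
  unfold DD
  rw [sq, sum_mul_sum, ← sum_product']
  have h1 : ∀ p ∈ (range b) ×ˢ (range b), p.1 + p.2 ∈ range (2 * b - 1) := by
    intro p hp
    rw [mem_product, mem_range, mem_range] at hp
    rw [mem_range]; omega
  rw [← sum_fiberwise_of_maps_to h1]
  apply sum_congr rfl
  intro s _
  rw [w2, card_eq_sum_ones, Nat.cast_sum, sum_mul]
  apply sum_congr rfl
  intro p hp
  rw [mem_filter] at hp
  rw [← ls_ee_add, ← hp.2]
  push_cast
  rw [one_mul]
  congr 1
  ring

lemma DD_pow (b : ℕ) (hb : 1 ≤ b) (K c : ℕ) (β : ℝ) :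
    DD b β ^ (xx K c) = ∑ s ∈ range (RR b K c), (ww b K c s : ℂ) * ee (s * β) := by
  unfold xx RR ww
  split_ifs with h
  · exact DD_sq b hb β
  · simp [DD]

lemma ww_sq (b K c : ℕ) :
    ∑ s ∈ range (RR b K c), ((ww b K c s : ℝ)) ^ 2 = if c < K then EE b else (b : ℝ) := by
  unfold RR ww
  split_ifs with h
  · rfl
  · simp

/-- the frequency attached to a digit vector -/
def nn (b M : ℕ) {J : ℕ} (s : Fin J → ℕ) : ℕ := ∑ c : Fin J, s c * fr b M c

lemma nn_inj (b : ℕ) (hb : 2 ≤ b) (M : ℕ) (s t : Fin (M + 1) → ℕ) (hs : ∀ c, s c ≤ 2 * (b - 1))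
    (ht : ∀ c, t c ≤ 2 * (b - 1)) (h : nn b M s = nn b M t) : s = t := by
  have h1 := digits_zero b hb M
    (fun c => if hc : c < M + 1 then (s ⟨c, hc⟩ : ℤ) - t ⟨c, hc⟩ else 0) ?_ ?_
  · funext c
    have := h1 c (by omega)
    simp only [c.2, dif_pos] at this
    have h3 : ((s c : ℤ)) = t c := by linarith
    exact_mod_cast h3
  · intro c hc
    have hc' : c < M + 1 := by omega
    simp only [hc', dif_pos]
    have h2 := hs ⟨c, hc'⟩
    have h3 := ht ⟨c, hc'⟩
    rw [abs_le]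
    omega
  · rw [← Fin.sum_univ_eq_sum_range (fun c => (if hc : c < M + 1 then (s ⟨c, hc⟩ : ℤ) - t ⟨c, hc⟩ else 0) * fr b M c) (M + 1)]
    have h4 : (nn b M s : ℤ) - nn b M t = 0 := by rw [h]; ring
    rw [← h4]
    unfold nn
    push_cast
    rw [← sum_sub_distrib]
    apply sum_congr rfl
    intro c _
    simp only [c.2, dif_pos]
    ring

lemma nn_le (b : ℕ) (hb : 2 ≤ b) (M : ℕ) (s : Fin (M + 1) → ℕ) (hs : ∀ c, s c ≤ 2 * (b - 1)) :
    nn b M s + 1 ≤ 2 * b ^ (2 * M + 1) := by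
  have h1 : nn b M s ≤ 2 * (b - 1) * ∑ c ∈ range (M + 1), fr b M c := by
    unfold nn
    rw [mul_sum, ← Fin.sum_univ_eq_sum_range (fun c => 2 * (b - 1) * fr b M c) (M + 1)]
    exact sum_le_sum fun c _ => Nat.mul_le_mul_right _ (hs c)
  have h2 := sum_fr_int b M
  have h3 : ((b - 1 : ℕ) : ℤ) = (b : ℤ) - 1 := by
    rw [Nat.cast_sub (by omega)]; simp
  have h4 : ((nn b M s : ℕ) : ℤ) ≤
      2 * ((b : ℤ) - 1) * ∑ c ∈ range (M + 1), (fr b M c : ℤ) := by
    rw [← h3]
    exact_mod_cast h1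
  have h5 : ((nn b M s + 1 : ℕ) : ℤ) ≤ ((2 * b ^ (2 * M + 1) : ℕ) : ℤ) := by
    push_cast
    rw [← h2]
    linarith
  exact_mod_cast h5

/-- the exponential sum -/
lemma SS_expand (b : ℕ) (hb : 1 ≤ b) (M K : ℕ) (x : ℝ) :
    ∏ c : Fin (M + 1), DD b (fr b M c * x) ^ (xx K c) =
      ∑ s ∈ Fintype.piFinset (fun c : Fin (M + 1) => range (RR b K c)),
        ((∏ c : Fin (M + 1), ww b K c (s c) : ℕ) : ℂ) * ee (nn b M s * x) := by
  simp_rw [DD_pow b hb]
  rw [prod_univ_sum]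
  apply sum_congr rfl
  intro s _
  rw [prod_mul_distrib]
  push_cast
  congr 1
  unfold nn
  push_cast
  rw [sum_mul]
  induction (univ : Finset (Fin (M + 1))) using Finset.induction_on with
  | empty => simp [ee]
  | insert a t ha ih =>
    rw [prod_insert ha, sum_insert ha, ls_ee_add, ih]
    congr 2
    ring

lemma RR_le (b : ℕ) (hb : 2 ≤ b) (K c s : ℕ) (h : s ∈ range (RR b K c)) : s ≤ 2 * (b - 1) := by
  rw [mem_range] at h
  unfold RR at h
  split_ifs at h <;> omega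

/-- large sieve for the block, after rescaling -/
lemma block_ls (b : ℕ) (hb : 2 ≤ b) (M K F : ℕ) :
    ∑ f ∈ Icc 1 F, ∑ a ∈ (range f).filter (fun a => a.Coprime f),
      ‖∏ c : Fin (M + 1), DD b (fr b M c * ((a : ℝ) / f)) ^ (xx K c)‖ ^ 2 ≤
      6 * ((2 * b ^ (2 * M + 1) : ℕ) + (F : ℝ) ^ 2) *
        ∏ c : Fin (M + 1), (if (c : ℕ) < K then EE b else (b : ℝ)) := by
  classical
  set P := Fintype.piFinset (fun c : Fin (M + 1) => range (RR b K c)) with hP
  set W : (Fin (M + 1) → ℕ) → ℝ := fun s => ((∏ c : Fin (M + 1), ww b K c (s c) : ℕ) : ℝ) with hW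
  set α : ℕ → ℂ := fun n => ∑ s ∈ P.filter (fun s => nn b M s + 1 = n), (W s : ℂ) with hα
  set N := 2 * b ^ (2 * M + 1) with hN
  have hs18 : ∀ s ∈ P, ∀ c, s c ≤ 2 * (b - 1) := by
    intro s hs c
    rw [hP, Fintype.mem_piFinset] at hs
    exact RR_le b hb K c _ (hs c)
  have hmaps : ∀ s ∈ P, nn b M s + 1 ∈ Icc 1 N := by
    intro s hs
    rw [mem_Icc]
    exact ⟨by omega, nn_le b hb M s (hs18 s hs)⟩
  have key := additive_large_sieve N F α
  have h1 : ∑ n ∈ Icc 1 N, ‖α n‖ ^ 2 =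
      ∏ c : Fin (M + 1), (if (c : ℕ) < K then EE b else (b : ℝ)) := by
    have h2 : ∀ n, ‖α n‖ ^ 2 = ∑ s ∈ P.filter (fun s => nn b M s + 1 = n), W s ^ 2 := by
      intro n
      rw [hα]
      simp only
      rcases (P.filter (fun s => nn b M s + 1 = n)).eq_empty_or_nonempty with h | ⟨s, hs⟩
      · rw [h]; simp
      · have : P.filter (fun s => nn b M s + 1 = n) = {s} := by
          apply eq_singleton_iff_unique_mem.2 ⟨hs, ?_⟩
          intro t ht
          rw [mem_filter] at hs ht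
          exact nn_inj b hb M t s (hs18 t ht.1) (hs18 s hs.1) (by omega)
        rw [this]
        simp
    simp_rw [h2]
    rw [sum_fiberwise_of_maps_to hmaps (fun s => W s ^ 2)]
    have h3 : ∀ s, W s ^ 2 = ∏ c : Fin (M + 1), ((ww b K c (s c) : ℝ)) ^ 2 := by
      intro s
      rw [hW]
      simp only
      push_cast
      rw [← prod_pow]
    simp_rw [h3]
    rw [hP, ← prod_univ_sum (fun c : Fin (M + 1) => range (RR b K c))
      (fun c j => ((ww b K c j : ℝ)) ^ 2)]
    exact prod_congr rfl fun c _ => ww_sq b K c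
  rw [h1] at key
  refine le_trans (le_of_eq ?_) key
  apply sum_congr rfl
  intro f _
  apply sum_congr rfl
  intro a _
  congr 1
  rw [SS_expand b (by omega)]
  have h4 : ∑ n ∈ Icc 1 N, α n * ee (n * a / f) =
      ee ((a : ℝ) / f) * ∑ s ∈ P, ((∏ c : Fin (M + 1), ww b K c (s c) : ℕ) : ℂ) *
        ee (nn b M s * ((a : ℝ) / f)) := by
    rw [hα]
    simp only
    simp_rw [sum_mul]
    rw [← sum_fiberwise_of_maps_to hmaps, mul_sum]
    apply sum_congr rfl
    intro n _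
    rw [mul_sum]
    apply sum_congr rfl
    intro s hs
    rw [mem_filter] at hs
    rw [← hs.2, hW]
    have : ee (((nn b M s + 1 : ℕ) : ℝ) * a / f) =
        ee ((a : ℝ) / f) * ee (nn b M s * ((a : ℝ) / f)) := by
      rw [← ls_ee_add]
      congr 1
      push_cast
      ring
    rw [this]
    push_cast
    ring
  rw [h4, norm_mul, ls_norm_ee, one_mul]

lemma ph_eq (b : ℕ) (β : ℝ) : ph b β = ‖DD b β‖ / b := rfl

/-- the function of the block as a norm square -/
lemma block_eq (b : ℕ) (hb : 2 ≤ b) (M K : ℕ) (hK : K ≤ M + 1) (x : ℝ) :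
    Ps b M 0 K x ^ 4 * Ps b M K (M + 1 - K) x ^ 2 =
      ‖∏ c : Fin (M + 1), DD b (fr b M c * x) ^ (xx K c)‖ ^ 2 /
        ((b : ℝ) ^ (4 * K) * (b : ℝ) ^ (2 * (M + 1 - K))) := by
  have hb0 : (b : ℝ) ≠ 0 := by
    have : b ≠ 0 := by omega
    exact_mod_cast this
  have h1 : ‖∏ c : Fin (M + 1), DD b (fr b M c * x) ^ (xx K c)‖ ^ 2 =
      ∏ c ∈ range (M + 1), ‖DD b (fr b M c * x)‖ ^ (2 * xx K c) := by
    rw [norm_prod, ← prod_pow,
      ← Fin.prod_univ_eq_prod_range (fun c => ‖DD b (fr b M c * x)‖ ^ (2 * xx K c)) (M + 1)]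
    apply prod_congr rfl
    intro c _
    rw [norm_pow, ← pow_mul, mul_comm 2]
  obtain ⟨R, hR⟩ := Nat.exists_eq_add_of_le hK
  have h2 : M + 1 - K = R := by omega
  rw [h1, h2, hR, prod_range_add]
  have h3 : ∏ c ∈ range K, ‖DD b (fr b M c * x)‖ ^ (2 * xx K c) =
      Ps b M 0 K x ^ 4 * (b : ℝ) ^ (4 * K) := by
    have : ∏ c ∈ range K, ‖DD b (fr b M c * x)‖ ^ (2 * xx K c) =
        ∏ c ∈ range K, (ph b (fr b M (0 + c) * x) ^ 4 * (b : ℝ) ^ 4) := by
      apply prod_congr rfl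
      intro c hc
      rw [mem_range] at hc
      unfold xx
      rw [if_pos hc, ph_eq, zero_add, div_pow, div_mul_cancel₀ _ (pow_ne_zero 4 hb0)]
    rw [this, prod_mul_distrib, prod_pow, prod_const, card_range, ← pow_mul]
    rfl
  have h4 : ∏ c ∈ range R, ‖DD b (fr b M (K + c) * x)‖ ^ (2 * xx K (K + c)) =
      Ps b M K R x ^ 2 * (b : ℝ) ^ (2 * R) := by
    have : ∏ c ∈ range R, ‖DD b (fr b M (K + c) * x)‖ ^ (2 * xx K (K + c)) =
        ∏ c ∈ range R, (ph b (fr b M (K + c) * x) ^ 2 * (b : ℝ) ^ 2) := by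
      apply prod_congr rfl
      intro c hc
      unfold xx
      rw [if_neg (by omega), ph_eq, div_pow, div_mul_cancel₀ _ (pow_ne_zero 2 hb0)]
    rw [this, prod_mul_distrib, prod_pow, prod_const, card_range, ← pow_mul]
    rfl
  rw [h3, h4]
  have h5 : (b : ℝ) ^ (4 * K) ≠ 0 := pow_ne_zero _ hb0
  have h6 : (b : ℝ) ^ (2 * R) ≠ 0 := pow_ne_zero _ hb0
  field_simp

/-- product of the weights -/
lemma prod_weights (b M K : ℕ) (hK : K ≤ M + 1) :
    ∏ c : Fin (M + 1), (if (c : ℕ) < K then EE b else (b : ℝ)) =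
      EE b ^ K * (b : ℝ) ^ (M + 1 - K) := by
  obtain ⟨R, hR⟩ := Nat.exists_eq_add_of_le hK
  have h2 : M + 1 - K = R := by omega
  rw [Fin.prod_univ_eq_prod_range (fun c => if c < K then EE b else (b : ℝ)) (M + 1), h2, hR,
    prod_range_add]
  congr 1
  · rw [prod_congr rfl (g := fun _ => EE b) (fun c hc => by rw [mem_range] at hc; rw [if_pos hc])]
    simp
  · rw [prod_congr rfl (g := fun _ => (b : ℝ)) (fun c hc => by rw [if_neg (by omega)])]
    simp

/-- Task T1 -/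
theorem taskT1 : TaskT1 := by
  intro b hb L K J Q hK hJ hJL h1 h2
  obtain ⟨M, rfl⟩ : ∃ M, J = M + 1 := ⟨J - 1, by omega⟩
  have hb0 : 0 < b := by omega
  have hbR : (0 : ℝ) < b := by exact_mod_cast hb0
  have hQ : 1 ≤ Q := by
    have : 0 < b ^ (M + 1) := by positivity
    by_contra hcon
    have h3 : Q = 0 := by omega
    rw [h3, mul_zero] at h2
    omega
  set F : ℝ → ℝ := fun x => Ps b M 0 K x ^ 4 * Ps b M K (M + 1 - K) x ^ 2 with hF
  have hper : ∀ (x : ℝ) (n : ℤ), F (x + n) = F x := by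
    intro x n
    simp only [hF, Ps_add_int]
  have e1 : pts b Q (fun α => Ps b L 0 K α ^ 4 * Ps b L K (M + 1 - K) α ^ 2) = pts b Q F := by
    unfold pts
    apply sum_congr rfl
    intro q hq
    rw [mem_filter] at hq
    rw [← dilate (coprime_b hq.2) (L - M) F hper]
    apply sum_congr rfl
    intro a _
    simp only [hF]
    rw [Ps_scale (L := L) (M := M) (A := 0) (J := K) (by omega) (by omega),
      Ps_scale (L := L) (M := M) (A := K) (J := M + 1 - K) (by omega) (by omega)]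
  rw [e1]
  have e2 : pts b Q F ≤
      ∑ f ∈ Icc 1 (2 * Q), ∑ a ∈ (range f).filter (fun a => a.Coprime f), F ((a : ℝ) / f) := by
    unfold pts
    apply sum_le_sum_of_subset_of_nonneg
    · intro q hq
      rw [mem_filter, mem_Ico] at hq
      rw [mem_Icc]; omega
    · intro q _ _
      exact sum_nonneg fun a _ => mul_nonneg (pow_nonneg (Ps_nonneg _ _ _ _ _) _)
        (pow_nonneg (Ps_nonneg _ _ _ _ _) _)
  refine e2.trans ?_
  have e3 : ∑ f ∈ Icc 1 (2 * Q), ∑ a ∈ (range f).filter (fun a => a.Coprime f), F ((a : ℝ) / f) =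
      (∑ f ∈ Icc 1 (2 * Q), ∑ a ∈ (range f).filter (fun a => a.Coprime f),
      ‖∏ c : Fin (M + 1), DD b (fr b M c * ((a : ℝ) / f)) ^ (xx K c)‖ ^ 2) /
        ((b : ℝ) ^ (4 * K) * (b : ℝ) ^ (2 * (M + 1 - K))) := by
    rw [sum_div]
    apply sum_congr rfl
    intro f _
    rw [sum_div]
    apply sum_congr rfl
    intro a _
    simp only [hF]
    exact block_eq b hb M K hK _
  rw [e3, div_le_iff₀ (by positivity)]
  refine (block_ls b hb M K (2 * Q)).trans ?_
  rw [prod_weights b M K hK]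
  have h3 : (b : ℝ) ^ M ≤ Q := by
    have : b ^ M ≤ Q := by
      have h4 : b ^ (M + 1) = b * b ^ M := by ring
      rw [h4] at h2
      exact Nat.le_of_mul_le_mul_left h2 hb0
    exact_mod_cast this
  have h4 : (Q : ℝ) ≤ (b : ℝ) ^ (M + 1) := by exact_mod_cast h1
  have hQ0 : (0 : ℝ) < Q := by exact_mod_cast hQ
  have h5 : (((2 * b ^ (2 * M + 1) : ℕ)) : ℝ) + ((2 * Q : ℕ) : ℝ) ^ 2 ≤
      (2 * b + 4) * (Q : ℝ) ^ 2 := by
    push_cast
    have : (b : ℝ) ^ (2 * M + 1) = b * ((b : ℝ) ^ M) ^ 2 := by ring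
    rw [this]
    have h6 : ((b : ℝ) ^ M) ^ 2 ≤ (Q : ℝ) ^ 2 := by gcongr
    have h7 : 2 * (b * ((b : ℝ) ^ M) ^ 2) ≤ 2 * (b * (Q : ℝ) ^ 2) := by gcongr
    linarith
  obtain ⟨R, hR⟩ := Nat.exists_eq_add_of_le hK
  have hR' : M + 1 - K = R := by omega
  rw [hR'] at *
  rw [hR] at h4
  have hE0 : 0 ≤ EE b := by unfold EE; positivity
  have h7 : EE b ^ K * (b : ℝ) ^ K ≤ (3 / 4 : ℝ) ^ K * ((b : ℝ) ^ (4 * K)) := by
    rw [pow_mul, ← mul_pow, ← mul_pow]
    apply pow_le_pow_left₀ (by positivity)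
    have := EE_le b hb
    calc EE b * b ≤ 3 / 4 * (b : ℝ) ^ 3 * b := by gcongr
      _ = 3 / 4 * (b : ℝ) ^ 4 := by ring
  calc 6 * (((2 * b ^ (2 * M + 1) : ℕ) : ℝ) + ((2 * Q : ℕ) : ℝ) ^ 2) * (EE b ^ K * (b : ℝ) ^ R)
      ≤ 6 * ((2 * b + 4) * (Q : ℝ) ^ 2) * (EE b ^ K * (b : ℝ) ^ R) := by gcongr
    _ = 6 * (2 * b + 4) * (Q : ℝ) * (EE b ^ K * (b : ℝ) ^ R) * (Q : ℝ) := by ring
    _ ≤ 6 * (2 * b + 4) * (Q : ℝ) * (EE b ^ K * (b : ℝ) ^ R) * (b : ℝ) ^ (K + R) := by gcongr
    _ = 6 * (2 * b + 4) * (Q : ℝ) * (EE b ^ K * (b : ℝ) ^ K) * (b : ℝ) ^ (2 * R) := by ring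
    _ ≤ 6 * (2 * b + 4) * (Q : ℝ) * ((3 / 4 : ℝ) ^ K * ((b : ℝ) ^ (4 * K))) * (b : ℝ) ^ (2 * R) := by
      gcongr
    _ = 6 * (2 * (b : ℝ) + 4) * Q * (3 / 4) ^ K * ((b : ℝ) ^ (4 * K) * (b : ℝ) ^ (2 * R)) := by
      ring

end Pool.Agent.H944R3.PB
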