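import Pool.Agent.H286R5.ZakX

/-!
# Task Quad of the project H286-ZAK: no quadric in the last five coordinates contains the curve
-/

set_option autoImplicit false

namespace Pool.Agent.H944R3.ZakQuad

open Polynomial in
theorem upoly (w : ℂ[X]) (h : ∀ s : ℂ, s ≠ 0 → w.eval s = 0) : w = 0 := by
  by_contra hw
  have h1 : {s : ℂ | w.IsRoot s}.Finite := Polynomial.finite_setOfPred_isRoot hw
  have h2 : ({0}ᶜ : Set ℂ) ⊆ {s : ℂ | w.IsRoot s} := fun s hs => h s hs
  exact (Set.finite_singleton (0 : ℂ)).infinite_compl (h1.subset h2)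

open MvPolynomial in
theorem quad2 (G : MvPolynomial (Fin 5) ℂ) (hG : G.IsHomogeneous 2)
    (h : ∀ s : ℂ, s ≠ 0 →
      MvPolynomial.eval ![s ^ 8, s ^ 9 + 1, s ^ 7 + s ^ 3, s ^ 2, s] G = 0) : G = 0 := by
  have E1 : ∑ i, X i * pderiv i G = 2 • G := hG.sum_X_mul_pderiv
  have h1 : ∀ i, (pderiv i G).IsHomogeneous 1 := fun i => hG.pderiv
  have E2 : ∀ i, ∑ j, X j * pderiv j (pderiv i G) = 1 • pderiv i G :=
    fun i => (h1 i).sum_X_mul_pderiv
  have h2 : ∀ i j, (pderiv j (pderiv i G)).IsHomogeneous 0 := fun i j => (h1 i).pderiv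
  have h3 : ∀ i j, ∃ c : ℂ, pderiv j (pderiv i G) = C c := fun i j =>
    ⟨_, totalDegree_eq_zero_iff_eq_C.1 (Nat.le_zero.1 (h2 i j).totalDegree_le)⟩
  choose c hc using h3
  have E3 : 2 • G = ∑ i, X i * ∑ j, X j * C (c i j) := by
    rw [← E1]
    refine Finset.sum_congr rfl fun i _ => ?_
    have := E2 i
    rw [one_smul] at this
    rw [← this]
    congr 1
    refine Finset.sum_congr rfl fun j _ => ?_
    rw [hc i j]
  have key : ∀ w : Polynomial ℂ, w = Polynomial.C (c 1 1) * Polynomial.X ^ 18 +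
      Polynomial.C (c 0 1 + c 1 0) * Polynomial.X ^ 17 +
      Polynomial.C (c 0 0 + (c 1 2 + c 2 1)) * Polynomial.X ^ 16 +
      Polynomial.C (c 0 2 + c 2 0) * Polynomial.X ^ 15 +
      Polynomial.C (c 2 2) * Polynomial.X ^ 14 +
      Polynomial.C (c 1 2 + c 2 1) * Polynomial.X ^ 12 +
      Polynomial.C ((c 1 3 + c 3 1) + (c 0 2 + c 2 0)) * Polynomial.X ^ 11 +
      Polynomial.C ((c 1 4 + c 4 1) + 2 * c 2 2 + (c 0 3 + c 3 0)) * Polynomial.X ^ 10 +
      Polynomial.C (2 * c 1 1 + (c 2 3 + c 3 2) + (c 0 4 + c 4 0)) * Polynomial.X ^ 9 +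
      Polynomial.C ((c 0 1 + c 1 0) + (c 2 4 + c 4 2)) * Polynomial.X ^ 8 +
      Polynomial.C (c 1 2 + c 2 1) * Polynomial.X ^ 7 +
      Polynomial.C (c 2 2) * Polynomial.X ^ 6 +
      Polynomial.C (c 2 3 + c 3 2) * Polynomial.X ^ 5 +
      Polynomial.C ((c 2 4 + c 4 2) + c 3 3) * Polynomial.X ^ 4 +
      Polynomial.C ((c 1 2 + c 2 1) + (c 3 4 + c 4 3)) * Polynomial.X ^ 3 +
      Polynomial.C ((c 1 3 + c 3 1) + c 4 4) * Polynomial.X ^ 2 +
      Polynomial.C (c 1 4 + c 4 1) * Polynomial.X ^ 1 +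
      Polynomial.C (c 1 1) → w = 0 := by
    intro w hw
    apply upoly
    intro s hs
    have e1 := congrArg (MvPolynomial.eval ![s ^ 8, s ^ 9 + 1, s ^ 7 + s ^ 3, s ^ 2, s]) E3
    rw [map_nsmul, h s hs, smul_zero] at e1
    simp only [Fin.sum_univ_five, map_add, map_mul, eval_X, eval_C, Matrix.cons_val_zero,
      Matrix.cons_val_one, Matrix.cons_val] at e1
    rw [hw]
    simp only [Polynomial.eval_add, Polynomial.eval_mul, Polynomial.eval_C, Polynomial.eval_pow,
      Polynomial.eval_X]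
    linear_combination -e1
  have k0 := key _ rfl
  have co : ∀ n, Polynomial.coeff (0 : Polynomial ℂ) n = 0 := fun n => Polynomial.coeff_zero n
  have g18 := congrArg (fun f => Polynomial.coeff f 18) k0
  have g17 := congrArg (fun f => Polynomial.coeff f 17) k0
  have g16 := congrArg (fun f => Polynomial.coeff f 16) k0
  have g15 := congrArg (fun f => Polynomial.coeff f 15) k0
  have g14 := congrArg (fun f => Polynomial.coeff f 14) k0
  have g12 := congrArg (fun f => Polynomial.coeff f 12) k0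
  have g11 := congrArg (fun f => Polynomial.coeff f 11) k0
  have g10 := congrArg (fun f => Polynomial.coeff f 10) k0
  have g9 := congrArg (fun f => Polynomial.coeff f 9) k0
  have g8 := congrArg (fun f => Polynomial.coeff f 8) k0
  have g5 := congrArg (fun f => Polynomial.coeff f 5) k0
  have g4 := congrArg (fun f => Polynomial.coeff f 4) k0
  have g3 := congrArg (fun f => Polynomial.coeff f 3) k0
  have g2 := congrArg (fun f => Polynomial.coeff f 2) k0
  have g1 := congrArg (fun f => Polynomial.coeff f 1) k0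
  simp only [Polynomial.coeff_add, Polynomial.coeff_C_mul_X_pow, Polynomial.coeff_C,
    Polynomial.coeff_zero] at g18 g17 g16 g15 g14 g12 g11 g10 g9 g8 g5 g4 g3 g2 g1
  norm_num at g18 g17 g16 g15 g14 g12 g11 g10 g9 g8 g5 g4 g3 g2 g1
  have c11 : c 1 1 = 0 := g18
  have c01 : c 1 0 = -c 0 1 := by linear_combination g17
  have c02 : c 2 0 = -c 0 2 := by linear_combination g15
  have c22 : c 2 2 = 0 := g14
  have c12 : c 2 1 = -c 1 2 := by linear_combination g12
  have c00 : c 0 0 = 0 := by linear_combination g16 - g12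
  have c13 : c 3 1 = -c 1 3 := by linear_combination g11 - g15
  have c24 : c 4 2 = -c 2 4 := by linear_combination g8 - g17
  have c23 : c 3 2 = -c 2 3 := by linear_combination g5
  have c14 : c 4 1 = -c 1 4 := by linear_combination g1
  have c03 : c 3 0 = -c 0 3 := by linear_combination g10 - g1 - 2 * c22
  have c04 : c 4 0 = -c 0 4 := by linear_combination g9 - 2 * c11 - g5
  have c33 : c 3 3 = 0 := by linear_combination g4 - c24
  have c34 : c 4 3 = -c 3 4 := by linear_combination g3 - g12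
  have c44 : c 4 4 = 0 := by linear_combination g2 - c13
  have E4 : 2 • G = 0 := by
    rw [E3]
    simp only [Fin.sum_univ_five, c11, c01, c02, c22, c12, c00, c13, c24, c23, c14, c03, c04, c33,
      c34, c44, map_neg, map_zero]
    ring
  rw [two_nsmul, ← two_mul] at E4
  rcases mul_eq_zero.1 E4 with h5 | h5
  · exact absurd h5 two_ne_zero
  · exact h5

theorem quad (j : ℕ) (G : MvPolynomial (Fin 5) ℂ) (hj : j ≤ 2) (hG : G.IsHomogeneous j)
    (h : ∀ s : ℂ, s ≠ 0 →
      MvPolynomial.eval ![s ^ 8, s ^ 9 + 1, s ^ 7 + s ^ 3, s ^ 2, s] G = 0) : G = 0 := by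
  have h1 : (MvPolynomial.X 0 ^ (2 - j) * G : MvPolynomial (Fin 5) ℂ) = 0 := by
    apply quad2
    · have h2 := ((MvPolynomial.isHomogeneous_X ℂ (0 : Fin 5)).pow (2 - j)).mul hG
      have h3 : 1 * (2 - j) + j = 2 := by omega
      rwa [h3] at h2
    · intro s hs
      rw [map_mul, h s hs, mul_zero]
  rcases mul_eq_zero.1 h1 with h2 | h2
  · exact absurd h2 (pow_ne_zero _ (MvPolynomial.X_ne_zero 0))
  · exact h2

theorem taskQuad : Pool.Agent.H286R5.TaskQuad := quad

end Pool.Agent.H944R3.ZakQuad
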