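import Pool.Agent.H854R3.CR.Stmts

/-!
# Task Add of the project H854-CR: good lists in critical rings have bounded length

A term function is a polynomial map of some degree `d` on `ℕ → R`.  For a good list `L₁, …, L_q`
every vector is a sum of vectors `w₁, …, w_q` with all entries of `w_i` in all `L_j`, `j ≠ i`.  Hence
a polynomial map of degree `< q` which vanishes on the vectors with entries in one `L_j` is zero.
-/

set_option autoImplicit false

namespace Pool.Agent.H944R3.CRAdd

open Pool.Agent.H854R3.NE Pool.Agent.H854R3.CR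

/-- polynomial maps of degree at most `d` -/
def IsPoly {G R : Type} [AddCommGroup G] [NonUnitalRing R] : ℕ → (G → R) → Prop
  | 0, F => ∀ u v, F u = F v
  | d + 1, F => ∀ u, IsPoly d (fun v => F (v + u) - F v)

section
variable {G R : Type} [AddCommGroup G] [NonUnitalRing R]

theorem poly_succ (d : ℕ) : ∀ F : G → R, IsPoly d F → IsPoly (d + 1) F := by
  induction d with
  | zero =>
    intro F hF u v w
    have h1 : F (v + u) = F v := hF _ _
    have h2 : F (w + u) = F w := hF _ _
    change F (v + u) - F v = F (w + u) - F w
    rw [h1, h2, sub_self, sub_self]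
  | succ d ih =>
    intro F hF u
    exact ih _ (hF u)

theorem poly_mono {d e : ℕ} (h : d ≤ e) (F : G → R) (hF : IsPoly d F) : IsPoly e F := by
  induction e, h using Nat.le_induction with
  | base => exact hF
  | succ e _ ih => exact poly_succ e F ih

theorem poly_zero (d : ℕ) : IsPoly d (fun _ : G => (0 : R)) :=
  poly_mono (Nat.zero_le d) _ (fun _ _ => rfl)

theorem poly_add (d : ℕ) : ∀ F H : G → R, IsPoly d F → IsPoly d H →
    IsPoly d (fun v => F v + H v) := by
  induction d with
  | zero =>
    intro F H hF hH u v
    change F u + H u = F v + H v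
    rw [hF u v, hH u v]
  | succ d ih =>
    intro F H hF hH u
    have h1 := ih _ _ (hF u) (hH u)
    have h2 : (fun v => F (v + u) + H (v + u) - (F v + H v)) =
        fun v => (F (v + u) - F v) + (H (v + u) - H v) := by
      funext v; abel
    change IsPoly d (fun v => F (v + u) + H (v + u) - (F v + H v))
    rw [h2]
    exact h1

theorem poly_neg (d : ℕ) : ∀ F : G → R, IsPoly d F → IsPoly d (fun v => - F v) := by
  induction d with
  | zero =>
    intro F hF u v
    change - F u = - F v
    rw [hF u v]
  | succ d ih =>
    intro F hF u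
    have h1 := ih _ (hF u)
    have h2 : (fun v => - F (v + u) - - F v) = fun v => - (F (v + u) - F v) := by
      funext v; abel
    change IsPoly d (fun v => - F (v + u) - - F v)
    rw [h2]
    exact h1

theorem poly_shift (d : ℕ) (w : G) : ∀ F : G → R, IsPoly d F →
    IsPoly d (fun v => F (v + w)) := by
  induction d with
  | zero => intro F hF u v; exact hF _ _
  | succ d ih =>
    intro F hF u
    have h1 := ih _ (hF u)
    have h2 : (fun v => F (v + u + w) - F (v + w)) = fun v => F (v + w + u) - F (v + w) := by
      funext v; rw [add_right_comm]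
    change IsPoly d (fun v => F (v + u + w) - F (v + w))
    rw [h2]
    exact h1

theorem poly_mul (n : ℕ) : ∀ (d e : ℕ) (F H : G → R), d + e ≤ n → IsPoly d F → IsPoly e H →
    IsPoly n (fun v => F v * H v) := by
  induction n with
  | zero =>
    intro d e F H hde hF hH u v
    have hd : d = 0 := by omega
    have he : e = 0 := by omega
    subst hd; subst he
    change F u * H u = F v * H v
    rw [hF u v, hH u v]
  | succ n ih =>
    intro d e F H hde hF hH u
    have h2 : (fun v => F (v + u) * H (v + u) - F v * H v) =
        fun v => (F (v + u) - F v) * H (v + u) + F v * (H (v + u) - H v) := by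
      funext v
      rw [sub_mul, mul_sub]; abel
    change IsPoly n (fun v => F (v + u) * H (v + u) - F v * H v)
    rw [h2]
    apply poly_add
    · rcases d with _ | d
      · have h3 : (fun v => (F (v + u) - F v) * H (v + u)) = fun _ => 0 := by
          funext v
          rw [hF (v + u) v, sub_self, zero_mul]
        rw [h3]
        exact poly_zero n
      · exact ih d e _ _ (by omega) (hF u) (poly_shift e u H hH)
    · rcases e with _ | e
      · have h3 : (fun v => F v * (H (v + u) - H v)) = fun _ => 0 := by
          funext v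
          rw [hH (v + u) v, sub_self, mul_zero]
        rw [h3]
        exact poly_zero n
      · exact ih d e _ _ (by omega) hF (hH u)

theorem poly_vanish {ι : Type} [DecidableEq ι] (d : ℕ) : ∀ (F : G → R), IsPoly d F →
    ∀ (T : Finset ι) (w : ι → G), d < T.card → (∀ S, S ⊂ T → F (∑ i ∈ S, w i) = 0) →
    F (∑ i ∈ T, w i) = 0 := by
  induction d with
  | zero =>
    intro F hF T w hT hS
    have hne : T.Nonempty := Finset.card_pos.1 hT
    rw [hF _ (∑ i ∈ (∅ : Finset ι), w i)]
    exact hS ∅ (Finset.empty_ssubset.2 hne)
  | succ d ih =>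
    intro F hF T w hT hS
    obtain ⟨a, ha⟩ : T.Nonempty := Finset.card_pos.1 (by omega)
    have hcard : d < (T.erase a).card := by
      rw [Finset.card_erase_of_mem ha]; omega
    have hsub : T.erase a ⊂ T := Finset.erase_ssubset ha
    have h1 := ih _ (hF (w a)) (T.erase a) w hcard (by
      intro S hST
      have haS : a ∉ S := fun h => (Finset.mem_erase.1 (hST.1 h)).1 rfl
      have h2 : F (∑ i ∈ S, w i) = 0 := hS S (hST.trans hsub)
      have h3 : F (∑ i ∈ insert a S, w i) = 0 := by
        apply hS
        obtain ⟨b, hb, hbS⟩ := Finset.exists_of_ssubset hST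
        refine (Finset.ssubset_iff_of_subset ?_).2 ⟨b, Finset.mem_of_mem_erase hb, ?_⟩
        · intro x hx
          rcases Finset.mem_insert.1 hx with h | h
          · rw [h]; exact ha
          · exact Finset.mem_of_mem_erase (hST.1 h)
        · intro h
          rcases Finset.mem_insert.1 h with h | h
          · exact (Finset.mem_erase.1 hb).1 h
          · exact hbS h
      rw [Finset.sum_insert haS, add_comm] at h3
      change F (∑ i ∈ S, w i + w a) - F (∑ i ∈ S, w i) = 0
      rw [h2, h3, sub_zero])
    have h4 : F (∑ i ∈ T.erase a, w i) = 0 := hS _ hsub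
    have h5 : F (∑ i ∈ T.erase a, w i + w a) - F (∑ i ∈ T.erase a, w i) = 0 := h1
    rw [h4, sub_zero, Finset.sum_erase_add T w ha] at h5
    exact h5

end

theorem poly_term {R : Type} [NonUnitalRing R] (t : RTerm) :
    ∃ d, IsPoly d (fun v : ℕ → R => t.val v) := by
  induction t with
  | var i =>
    refine ⟨1, fun u v w => ?_⟩
    change (v + u) i - v i = (w + u) i - w i
    simp
  | zero => exact ⟨0, poly_zero 0⟩
  | neg s ih =>
    obtain ⟨d, hd⟩ := ih
    exact ⟨d, poly_neg d _ hd⟩
  | add s t ih1 ih2 =>
    obtain ⟨d, hd⟩ := ih1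
    obtain ⟨e, he⟩ := ih2
    exact ⟨max d e, poly_add _ _ _ (poly_mono (le_max_left _ _) _ hd)
      (poly_mono (le_max_right _ _) _ he)⟩
  | mul s t ih1 ih2 =>
    obtain ⟨d, hd⟩ := ih1
    obtain ⟨e, he⟩ := ih2
    exact ⟨d + e, poly_mul (d + e) d e _ _ le_rfl hd he⟩

theorem good_mem {R : Type} [NonUnitalRing R] : ∀ l : List (AddSubgroup R), GoodList l →
    ∀ L ∈ l, L ≠ ⊤ ∧ ∀ x ∈ L, ∀ y ∈ L, x * y ∈ L := by
  intro l
  induction l with
  | nil => intro _ L hL; simp at hL
  | cons M t ih =>
    rintro ⟨h1, h2, -, h4⟩ L hL
    rcases List.mem_cons.1 hL with h | h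
    · rw [h]; exact ⟨h1, h2⟩
    · exact ih h4 L h

theorem decomp {R : Type} [NonUnitalRing R] : ∀ l : List (AddSubgroup R), l ≠ [] → GoodList l →
    ∀ r : R, ∃ w : Fin l.length → R, ∑ i, w i = r ∧ ∀ i j, i ≠ j → w i ∈ l.get j := by
  intro l
  induction l with
  | nil => intro h; exact absurd rfl h
  | cons L t ih =>
    intro _ hl r
    by_cases ht : t = []
    · subst ht
      refine ⟨fun _ => r, ?_, ?_⟩
      · change ∑ _i : Fin 1, r = r
        simp
      · intro i j hij
        exact absurd (Subsingleton.elim (α := Fin 1) i j) hij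
    · obtain ⟨-, -, h3, h4⟩ := hl
      obtain ⟨w, hw1, hw2⟩ := ih ht h4 r
      choose x y hx hy hxy using h3
      refine ⟨fun i => Fin.cons (α := fun _ => R) (∑ i, x (w i)) (fun i => y (w i)) i, ?_, ?_⟩
      · change ∑ i : Fin (t.length + 1),
          (Fin.cons (α := fun _ => R) (∑ i, x (w i)) (fun i => y (w i)) i : R) = r
        rw [Fin.sum_univ_succ]
        simp only [Fin.cons_zero, Fin.cons_succ]
        rw [← Finset.sum_add_distrib, ← hw1]
        exact Finset.sum_congr rfl fun i _ => hxy (w i)
      · intro i j hij
        change Fin (t.length + 1) at i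
        change Fin (t.length + 1) at j
        refine Fin.cases (fun hij => ?_) (fun i' hij => ?_) i hij
        · refine Fin.cases (fun hij => absurd rfl hij) (fun j' _ => ?_) j hij
          change ∑ i, x (w i) ∈ t.get j'
          exact sum_mem fun i _ => hx (w i) _ (List.get_mem t j')
        · refine Fin.cases (fun _ => ?_) (fun j' hij => ?_) j hij
          · exact hy (w i')
          · change y (w i') ∈ t.get j'
            have h5 : y (w i') = w i' - x (w i') := by
              rw [eq_sub_iff_add_eq, add_comm]; exact hxy (w i')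
            rw [h5]
            exact sub_mem (hw2 i' j' (fun h => hij (by rw [h])))
              (hx (w i') _ (List.get_mem t j'))

theorem taskAdd : TaskAdd := by
  rintro R _ ⟨e, hprop, hnot⟩
  obtain ⟨d1, h1⟩ := poly_term (R := R) e.1
  obtain ⟨d2, h2⟩ := poly_term (R := R) e.2
  have hd : IsPoly (max d1 d2) (fun v : ℕ → R => e.1.val v + - e.2.val v) :=
    poly_add _ _ _ (poly_mono (le_max_left _ _) _ h1)
      (poly_neg _ _ (poly_mono (le_max_right _ _) _ h2))
  have hvan : ∀ L : AddSubgroup R, L ≠ ⊤ → (∀ x ∈ L, ∀ y ∈ L, x * y ∈ L) →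
      ∀ v : ℕ → R, (∀ n, v n ∈ L) → e.1.val v + - e.2.val v = 0 := by
    intro L hL hmul v hv
    let B : NonUnitalSubring R :=
      { carrier := L
        add_mem' := fun {a b} ha hb => L.add_mem ha hb
        zero_mem' := L.zero_mem
        neg_mem' := fun {a} ha => L.neg_mem ha
        mul_mem' := fun {a b} ha hb => hmul a ha b hb }
    have hB : B ≠ ⊤ := by
      intro h
      apply hL
      rw [eq_top_iff]
      intro x _
      have : x ∈ B := by rw [h]; trivial
      exact this
    have hs : Satisfies B e := hprop B ⟨B, NonUnitalRingHom.id B, fun x => ⟨x, rfl⟩, Or.inl hB⟩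
    have h3 := congrArg (NonUnitalSubringClass.subtype B) (hs (fun n => ⟨v n, hv n⟩))
    rw [val_map, val_map] at h3
    have h4 : e.1.val v = e.2.val v := h3
    rw [h4, add_neg_cancel]
  refine ⟨max d1 d2, fun l hl => ?_⟩
  by_contra hcon
  rw [not_le] at hcon
  apply hnot
  intro v
  have hne : l ≠ [] := by
    intro h
    rw [h] at hcon
    simp at hcon
  choose w hw1 hw2 using fun n => decomp l hne hl (v n)
  have h5 := poly_vanish (max d1 d2) _ hd (Finset.univ : Finset (Fin l.length))
    (fun i n => w n i) (by simpa using hcon) (by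
      intro S hS
      obtain ⟨j, -, hj⟩ := Finset.exists_of_ssubset hS
      obtain ⟨g1, g2⟩ := good_mem l hl (l.get j) (List.get_mem l j)
      apply hvan (l.get j) g1 g2
      intro n
      rw [Finset.sum_apply]
      apply sum_mem
      intro i hi
      exact hw2 n i j (fun h => hj (h ▸ hi)))
  have h6 : (∑ i, fun n => w n i) = v := by
    funext n
    rw [Finset.sum_apply]
    exact hw1 n
  rw [h6] at h5
  exact eq_of_add_neg_eq_zero h5

end Pool.Agent.H944R3.CRAdd
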