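import Pool.Agent.H39R3.PS.Defs
import Pool.Agent.H623R3.PBT8

/-!
# Task SC of H39-PAL5: one dyadic block of square moduli in base `b` (port of `H985R2.PalT9a`)
-/

set_option autoImplicit false

namespace Pool.Agent.H944R3.PSSC

open Finset Pool.Agent.Helper112 Pool.Agent.H39R3.PB Pool.Agent.H39R3.PS

lemma cnt_le {b : ℕ} (hb : 0 < b) (L M : ℕ) (hM : 0 < M) :
    cnt b L M 0 ≤ (b : ℝ) ^ L * EM M (Ps b L 0 L) := by
  classical
  have hM1 : (0 : ℝ) < M := by exact_mod_cast hM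
  have h1 : ((M * cnt b L M 0 : ℝ) : ℂ) =
      ∑ a ∈ range M, ∑ m : Fin L → Fin b, ee (((a : ℝ) / M) * (pv b L m : ℝ)) := by
    rw [Finset.sum_comm]
    have h2 : ∀ m : Fin L → Fin b, ∑ a ∈ range M, ee (((a : ℝ) / M) * (pv b L m : ℝ)) =
        if pv b L m ≡ 0 [MOD M] then (M : ℂ) else 0 := by
      intro m
      rw [← Pool.Agent.H623R3.PBT8.orth hM (pv b L m) 0]
      refine Finset.sum_congr rfl fun a _ => ?_
      congr 1
      push_cast
      ring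
    rw [Finset.sum_congr rfl fun m _ => h2 m, ← Finset.sum_filter, Finset.sum_const, nsmul_eq_mul]
    unfold cnt
    push_cast
    ring
  have h2 : (M : ℝ) * cnt b L M 0 ≤ ∑ a ∈ range M, (b : ℝ) ^ L * Ps b L 0 L ((a : ℝ) / M) := by
    have h3 : (0 : ℝ) ≤ M * cnt b L M 0 := by
      unfold cnt
      positivity
    have h4 : ‖((M * cnt b L M 0 : ℝ) : ℂ)‖ = M * cnt b L M 0 := by
      rw [Complex.norm_real, Real.norm_of_nonneg h3]
    rw [← h4, h1]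
    refine (norm_sum_le _ _).trans (le_of_eq ?_)
    refine Finset.sum_congr rfl fun a _ => Pool.Agent.H623R3.PBT8.norm_sum_pv hb L _
  unfold EM
  rw [← Finset.mul_sum] at h2
  rw [← mul_div_assoc, le_div_iff₀ hM1]
  linarith

lemma Ps_split {b : ℕ} (L K J : ℕ) (hK : K ≤ J) (hKJ : K + 2 * J ≤ L) (lam : ℝ) (hl : 0 < lam)
    (x : ℝ) :
    Ps b L 0 L x ≤ lam * (Ps b L K J x * Ps b L (J + K) J x) +
      lam⁻¹ * ((Ps b L 0 K x ^ 2 * Ps b L K (J - K) x) * Ps b L (J + K) J x) := by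
  have h1 : Ps b L 0 L x ≤ Ps b L 0 (2 * J + K) x := by
    obtain ⟨R, hR⟩ := Nat.exists_eq_add_of_le (show 2 * J + K ≤ L by omega)
    have e : Ps b L 0 L x = Ps b L 0 (2 * J + K) x * Ps b L (0 + (2 * J + K)) R x := by
      rw [← Ps_add, ← hR]
    rw [e]
    exact mul_le_of_le_one_right (Ps_nonneg _ _ _ _ _) (Ps_le_one _ _ _ _ _)
  have h2 : Ps b L 0 (2 * J + K) x = Ps b L 0 K x * Ps b L K (J - K) x * Ps b L J K x *
      Ps b L (J + K) J x := by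
    have e1 : 2 * J + K = ((K + (J - K)) + K) + J := by omega
    rw [e1, Ps_add, Ps_add, Ps_add]
    have e2 : 0 + (K + (J - K)) = J := by omega
    have e3 : 0 + (K + (J - K) + K) = J + K := by omega
    have e4 : 0 + K = K := by omega
    rw [e2, e3, e4]
  have h3 : Ps b L K J x = Ps b L K (J - K) x * Ps b L J K x := by
    have e1 : J = (J - K) + K := by omega
    conv_lhs => rw [e1, Ps_add]
    have e2 : K + (J - K) = J := by omega
    rw [e2]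
  have ha0 := Ps_nonneg b L 0 K x
  have hb0 := Ps_nonneg b L K (J - K) x
  have hc0 := Ps_nonneg b L J K x
  have hc1 := Ps_le_one b L J K x
  have hd0 := Ps_nonneg b L (J + K) J x
  rw [h3]
  refine h1.trans ?_
  rw [h2]
  generalize Ps b L 0 K x = a at *
  generalize Ps b L K (J - K) x = b' at *
  generalize Ps b L J K x = c at *
  generalize Ps b L (J + K) J x = d at *
  have key : a ≤ lam + lam⁻¹ * a ^ 2 := by
    rcases le_total a lam with h | h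
    · have : 0 ≤ lam⁻¹ * a ^ 2 := by positivity
      linarith
    · have h5 : 1 ≤ lam⁻¹ * a := by
        rw [inv_mul_eq_div, le_div_iff₀ hl]; linarith
      have h6 : a ≤ (lam⁻¹ * a) * a := le_mul_of_one_le_left ha0 h5
      have h7 : (lam⁻¹ * a) * a = lam⁻¹ * a ^ 2 := by ring
      linarith
  have hbcd : 0 ≤ b' * c * d := by positivity
  calc a * b' * c * d = a * (b' * c * d) := by ring
    _ ≤ (lam + lam⁻¹ * a ^ 2) * (b' * c * d) := mul_le_mul_of_nonneg_right key hbcd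
    _ = lam * (b' * c * d) + (lam⁻¹ * (a ^ 2 * b' * d)) * c := by ring
    _ ≤ lam * (b' * c * d) + (lam⁻¹ * (a ^ 2 * b' * d)) * 1 := by
        refine add_le_add le_rfl (mul_le_mul_of_nonneg_left hc1 (by positivity))
    _ = _ := by ring

/-- Cauchy-Schwarz for averages over several moduli -/
lemma cs (s : Finset ℕ) (F G : ℝ → ℝ) (X Y : ℝ) (hX : ∑ m ∈ s, EM (m ^ 2) (fun x => F x ^ 2) ≤ X)
    (hY : ∑ m ∈ s, EM (m ^ 2) (fun x => G x ^ 2) ≤ Y) :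
    ∑ m ∈ s, EM (m ^ 2) (fun x => F x * G x) ≤ Real.sqrt X * Real.sqrt Y := by
  have hsig : ∀ H : ℝ → ℝ, ∑ m ∈ s, EM (m ^ 2) H =
      ∑ p ∈ s.sigma (fun m => range (m ^ 2)), H ((p.2 : ℝ) / ((p.1 ^ 2 : ℕ) : ℝ)) /
        ((p.1 ^ 2 : ℕ) : ℝ) := by
    intro H
    rw [Finset.sum_sigma]
    refine Finset.sum_congr rfl fun m _ => ?_
    unfold EM
    rw [Finset.sum_div]
  rw [hsig] at hX hY ⊢
  have h1 := Finset.sum_mul_sq_le_sq_mul_sq (s.sigma (fun m => range (m ^ 2)))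
    (fun p => F ((p.2 : ℝ) / ((p.1 ^ 2 : ℕ) : ℝ)) / Real.sqrt ((p.1 ^ 2 : ℕ) : ℝ))
    (fun p => G ((p.2 : ℝ) / ((p.1 ^ 2 : ℕ) : ℝ)) / Real.sqrt ((p.1 ^ 2 : ℕ) : ℝ))
  have hs : ∀ n : ℕ, Real.sqrt (n : ℝ) ^ 2 = n := fun n => Real.sq_sqrt (Nat.cast_nonneg _)
  have e1 : ∀ p : (_ : ℕ) × ℕ, F ((p.2 : ℝ) / ((p.1 ^ 2 : ℕ) : ℝ)) / Real.sqrt ((p.1 ^ 2 : ℕ) : ℝ) *
      (G ((p.2 : ℝ) / ((p.1 ^ 2 : ℕ) : ℝ)) / Real.sqrt ((p.1 ^ 2 : ℕ) : ℝ)) =
      F ((p.2 : ℝ) / ((p.1 ^ 2 : ℕ) : ℝ)) * G ((p.2 : ℝ) / ((p.1 ^ 2 : ℕ) : ℝ)) /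
        ((p.1 ^ 2 : ℕ) : ℝ) := by
    intro p
    rw [div_mul_div_comm, ← pow_two, hs]
  have e2 : ∀ (H : ℝ → ℝ) (p : (_ : ℕ) × ℕ),
      (H ((p.2 : ℝ) / ((p.1 ^ 2 : ℕ) : ℝ)) / Real.sqrt ((p.1 ^ 2 : ℕ) : ℝ)) ^ 2 =
      H ((p.2 : ℝ) / ((p.1 ^ 2 : ℕ) : ℝ)) ^ 2 / ((p.1 ^ 2 : ℕ) : ℝ) := by
    intro H p
    rw [div_pow, hs]
  rw [Finset.sum_congr rfl fun p _ => e1 p, Finset.sum_congr rfl fun p _ => e2 F p,
    Finset.sum_congr rfl fun p _ => e2 G p] at h1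
  have hX0 : 0 ≤ ∑ p ∈ s.sigma (fun m => range (m ^ 2)),
      F ((p.2 : ℝ) / ((p.1 ^ 2 : ℕ) : ℝ)) ^ 2 / ((p.1 ^ 2 : ℕ) : ℝ) :=
    Finset.sum_nonneg fun p _ => by positivity
  have hY0 : 0 ≤ ∑ p ∈ s.sigma (fun m => range (m ^ 2)),
      G ((p.2 : ℝ) / ((p.1 ^ 2 : ℕ) : ℝ)) ^ 2 / ((p.1 ^ 2 : ℕ) : ℝ) :=
    Finset.sum_nonneg fun p _ => by positivity
  rw [← Real.sqrt_mul (hX0.trans hX)]
  refine Real.le_sqrt_of_sq_le (h1.trans ?_)
  exact mul_le_mul hX hY hY0 (hX0.trans hX)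

lemma EM_mono (M : ℕ) (F G : ℝ → ℝ) (h : ∀ x, F x ≤ G x) : EM M F ≤ EM M G := by
  unfold EM
  exact div_le_div_of_nonneg_right (Finset.sum_le_sum fun a _ => h _) (Nat.cast_nonneg _)

lemma EM_lin (M : ℕ) (F G : ℝ → ℝ) (a b : ℝ) :
    EM M (fun x => a * F x + b * G x) = a * EM M F + b * EM M G := by
  unfold EM
  rw [Finset.sum_add_distrib, ← Finset.mul_sum, ← Finset.mul_sum]
  ring

theorem taskSC : TaskSC := by
  intro hSA hSB b hb L k J P T hT hk hJ hkJ h1 h2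
  have hb0 : 0 < b := by omega
  have hbr : (2 : ℝ) ≤ b := by exact_mod_cast hb
  have hP1 : 1 ≤ P := (Nat.one_le_pow _ _ hb0).trans h1
  have hT1 : 1 ≤ T := by
    have := hT 1 le_rfl (Nat.one_le_pow _ _ hb0)
    simpa using this
  obtain ⟨lam, hlam⟩ : ∃ lam : ℝ, ((3 : ℝ) / 4) ^ k = lam := ⟨_, rfl⟩
  have hl : 0 < lam := by rw [← hlam]; positivity
  obtain ⟨s, hs⟩ : ∃ s, (Ico P (2 * P)).filter (fun m => m.Coprime (2 * b)) = s := ⟨_, rfl⟩
  have hB1 := hSB b hb L (4 * k) J P T (by omega) hT h2 hP1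
  have hB2 := hSB b hb L (J + 4 * k) J P T (by omega) hT h2 hP1
  have hA : ∑ m ∈ s, EM (m ^ 2)
      (fun x => (Ps b L 0 (4 * k) x ^ 2 * Ps b L (4 * k) (J - 4 * k) x) ^ 2) ≤ b * lam ^ 4 := by
    have e1 : ∀ m ∈ s, EM (m ^ 2)
        (fun x => (Ps b L 0 (4 * k) x ^ 2 * Ps b L (4 * k) (J - 4 * k) x) ^ 2) ≤
        lam ^ 4 / (b : ℝ) ^ J := by
      intro m hm
      rw [← hs, Finset.mem_filter, Finset.mem_Ico] at hm
      have e2 := hSA b hb L (4 * k) J (m ^ 2) hk hJ (by omega) (by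
        calc b ^ (2 * J) = (b ^ J) ^ 2 := by rw [← pow_mul, mul_comm]
          _ ≤ m ^ 2 := Nat.pow_le_pow_left (h1.trans hm.1.1) 2) (hm.2.pow_left 2)
      rw [← hlam, ← pow_mul, mul_comm k 4]
      refine le_trans (le_of_eq ?_) e2
      congr 1
      funext x
      ring
    refine (Finset.sum_le_sum e1).trans ?_
    rw [Finset.sum_const, nsmul_eq_mul]
    have e3 : (s.card : ℝ) ≤ b * (b : ℝ) ^ J := by
      have : s.card ≤ b * b ^ J := by
        rw [← hs]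
        refine (Finset.card_filter_le _ _).trans ?_
        rw [Nat.card_Ico]; omega
      exact_mod_cast this
    have e4 : (0 : ℝ) < (b : ℝ) ^ J := by positivity
    rw [← mul_div_assoc, div_le_iff₀ e4]
    have e5 : (0 : ℝ) ≤ lam ^ 4 := by positivity
    nlinarith [mul_le_mul_of_nonneg_right e3 e5]
  rw [hs] at hB1 hB2 ⊢
  have hC1 := cs s _ _ _ _ hB1 hB2
  have hC2 := cs s _ _ _ _ hA hB2
  have hmain : ∑ m ∈ s, cnt b L (m ^ 2) 0 ≤ (b : ℝ) ^ L *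
      (lam * (Real.sqrt (b + T) * Real.sqrt (b + T)) +
        lam⁻¹ * (Real.sqrt (b * lam ^ 4) * Real.sqrt (b + T))) := by
    calc ∑ m ∈ s, cnt b L (m ^ 2) 0 ≤ ∑ m ∈ s, (b : ℝ) ^ L * (lam * EM (m ^ 2)
          (fun x => Ps b L (4 * k) J x * Ps b L (J + 4 * k) J x) + lam⁻¹ * EM (m ^ 2)
          (fun x => (Ps b L 0 (4 * k) x ^ 2 * Ps b L (4 * k) (J - 4 * k) x) *
            Ps b L (J + 4 * k) J x)) := by
          refine Finset.sum_le_sum fun m hm => ?_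
          rw [← hs, Finset.mem_filter, Finset.mem_Ico] at hm
          refine (cnt_le hb0 L (m ^ 2) (pow_pos (by omega) 2)).trans ?_
          refine mul_le_mul_of_nonneg_left ?_ (by positivity)
          rw [← EM_lin]
          exact EM_mono _ _ _ fun x => Ps_split L (4 * k) J hk (by omega) lam hl x
      _ = (b : ℝ) ^ L * (lam * ∑ m ∈ s, EM (m ^ 2)
          (fun x => Ps b L (4 * k) J x * Ps b L (J + 4 * k) J x) + lam⁻¹ * ∑ m ∈ s, EM (m ^ 2)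
          (fun x => (Ps b L 0 (4 * k) x ^ 2 * Ps b L (4 * k) (J - 4 * k) x) *
            Ps b L (J + 4 * k) J x)) := by
          rw [← Finset.mul_sum, Finset.sum_add_distrib, ← Finset.mul_sum, ← Finset.mul_sum]
      _ ≤ _ := by
          refine mul_le_mul_of_nonneg_left ?_ (by positivity)
          exact add_le_add (mul_le_mul_of_nonneg_left hC1 hl.le)
            (mul_le_mul_of_nonneg_left hC2 (inv_nonneg.2 hl.le))
  refine hmain.trans ?_
  rw [hlam]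
  have f0 : (b : ℝ) + T ≤ 2 * b * T := by nlinarith
  have f1 : Real.sqrt (b + T) * Real.sqrt (b + T) ≤ 2 * b * T := by
    rw [Real.mul_self_sqrt (by linarith)]; exact f0
  have f2 : Real.sqrt (b * lam ^ 4) * Real.sqrt (b + T) ≤ 2 * b * T * lam ^ 2 := by
    rw [← Real.sqrt_mul (by positivity), Real.sqrt_le_left (by positivity)]
    have g1 : (b : ℝ) * lam ^ 4 * (b + T) ≤ b * lam ^ 4 * (2 * b * T) :=
      mul_le_mul_of_nonneg_left f0 (by positivity)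
    have g2 : (b : ℝ) * lam ^ 4 * (2 * b * T) ≤ (b * lam ^ 4 * (2 * b * T)) * (2 * T) :=
      le_mul_of_one_le_right (by positivity) (by linarith)
    calc (b : ℝ) * lam ^ 4 * (b + T) ≤ (b * lam ^ 4 * (2 * b * T)) * (2 * T) := g1.trans g2
      _ = (2 * b * T * lam ^ 2) ^ 2 := by ring
  have f4 : lam⁻¹ * (Real.sqrt (b * lam ^ 4) * Real.sqrt (b + T)) ≤ 2 * b * T * lam := by
    calc lam⁻¹ * (Real.sqrt (b * lam ^ 4) * Real.sqrt (b + T)) ≤
        lam⁻¹ * (2 * b * T * lam ^ 2) :=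
          mul_le_mul_of_nonneg_left f2 (inv_nonneg.2 hl.le)
      _ = 2 * b * T * lam := by field_simp
  have f5 : lam * (Real.sqrt (b + T) * Real.sqrt (b + T)) ≤ lam * (2 * b * T) :=
    mul_le_mul_of_nonneg_left f1 hl.le
  calc (b : ℝ) ^ L * (lam * (Real.sqrt (b + T) * Real.sqrt (b + T)) +
        lam⁻¹ * (Real.sqrt (b * lam ^ 4) * Real.sqrt (b + T))) ≤
      (b : ℝ) ^ L * (lam * (2 * b * T) + 2 * b * T * lam) :=
        mul_le_mul_of_nonneg_left (add_le_add f5 f4) (by positivity)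
    _ ≤ 10 * b * (b : ℝ) ^ L * T * lam := by
        have : (0 : ℝ) ≤ b * (b : ℝ) ^ L * T * lam := by positivity
        nlinarith

end Pool.Agent.H944R3.PSSC
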